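import Pool.Agent.MP_b9875a_co.H99.Spec2

set_option autoImplicit false

namespace Pool.Agent.MP_b9875a_co.H99.LN

open Finset

namespace H95

section basic

variable {V α : Type} [DecidableEq V] {tl hd : α → V} {D : Finset α}

lemma ex_anti (v : V) {X Y : Finset V} (h : X ⊆ Y) : ex tl hd D v Y ≤ ex tl hd D v X :=
  card_le_card fun a ha => by
    rw [mem_filter] at ha ⊢
    exact ⟨ha.1, ha.2.1, fun hx => ha.2.2 (h hx)⟩

lemma ex_inter [DecidableEq α] (v : V) (X Y : Finset V) :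
    ex tl hd D v (X ∩ Y) ≤ ex tl hd D v X + ex tl hd D v Y := by
  refine le_trans (card_le_card fun a ha => ?_) (card_union_le _ _)
  simp only [mem_filter, mem_union, mem_inter] at ha ⊢
  tauto

lemma mval_mono {c c' : V → ℕ} {X : Finset V} (h : ∀ v ∈ X, c v ≤ c' v) :
    mval c tl hd D X ≤ mval c' tl hd D X :=
  sum_le_sum fun v hv => min_le_min_right _ (h v hv)

lemma adm_mono {S : Finset V} {θ : ℕ} {dm c c' : V → ℕ} (h : ∀ v ∈ S, c v ≤ c' v)
    (ha : Adm S θ dm c tl hd D) : Adm S θ dm c' tl hd D :=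
  fun X hX hθ => (ha X hX hθ).trans (mval_mono fun v hv => h v (hX hv))

lemma cnt_le_ex [DecidableEq α] {b : ℕ} (v : V) (X : Finset V)
    (h : ∀ y, (D.filter (fun a => tl a = v ∧ hd a = y)).card ≤ b) :
    cnt D tl v ≤ ex tl hd D v X + b * X.card := by
  have h1 : D.filter (fun a => tl a = v) ⊆ D.filter (fun a => tl a = v ∧ hd a ∉ X) ∪
      X.biUnion fun y => D.filter (fun a => tl a = v ∧ hd a = y) := fun a ha => by
    rw [mem_filter] at ha
    by_cases hx : hd a ∈ X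
    · exact mem_union_right _ (mem_biUnion.2 ⟨hd a, hx, mem_filter.2 ⟨ha.1, ha.2, rfl⟩⟩)
    · exact mem_union_left _ (mem_filter.2 ⟨ha.1, ha.2, hx⟩)
  refine (card_le_card h1).trans ((card_union_le _ _).trans (Nat.add_le_add_left ?_ _))
  rw [mul_comm]
  exact card_biUnion_le_card_mul _ _ _ fun y _ => h y

end basic

variable {V : Type} [DecidableEq V] {k m s : ℕ} {σ : St V}

lemma acc_zero (h : Good k m s σ) (hH : σ.H = ∅) (v : V) : σ.acc v = 0 := by
  have := h.fl.cout v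
  rw [hH] at this
  have e : cnt (∅ : Finset (V × V)) Prod.fst v = 0 := rfl
  omega

lemma cap_eq (h : Good k m s σ) (hH : σ.H = ∅) : cap σ = σ.c :=
  funext fun v => by rw [cap, acc_zero h hH, Nat.sub_zero]

lemma dg_none (h : Good k m s σ) (hN : σ.Need = ∅) : σ.dg = none := by
  have hB : σ.B = ∅ := eq_empty_of_forall_notMem fun τ hτ => by
    have := h.fl.lab τ hτ
    rw [hN] at this
    exact notMem_empty _ this
  have := h.fl.nb
  rw [hB, card_empty] at this
  rcases e : σ.dg with _ | a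
  · rfl
  · rw [e, dgn] at this
    omega

lemma not_sc (hH : σ.H = ∅) : ¬ Sc σ := by
  rintro ⟨f, -, Q, hQ, h2, -⟩
  rw [hH, subset_empty] at hQ
  rw [hQ, card_empty] at h2
  omega

lemma rich (h : Good k m s σ) (hH : σ.H = ∅) {v : V} (hv : v ∈ σ.S) (hc : 1 ≤ σ.c v)
    {X : Finset V} (hX : X.card < 2 * k + 1) :
    σ.c v + 6999 * k ≤ ex Prod.fst σ.hd σ.D v X := by
  have h1 := h.i1 v hv hc
  have h2 := h.und v hv hc
  have h3 := cnt_le_ex (tl := Prod.fst) (hd := σ.hd) (D := σ.D) (b := 100) v X fun y =>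
    le_trans (card_le_card (filter_subset_filter _ subset_union_left)) (h.mult v y)
  rw [hH] at h1
  have e : cnt (∅ : Finset (V × V)) Prod.fst v = 0 := rfl
  omega

lemma big_cap (h : Good k m s σ) {v : V} (hv : v ∈ σ.S) (hc : 1 ≤ σ.c v)
    (hm : σ.mu v < 100 * k) : 1200 * k ≤ σ.c v := by
  have h1 := h.i2 v hv hc
  have h2 : σ.be v ≤ 2000 * k := le_trans
    (single_le_sum (f := σ.be) (fun _ _ => Nat.zero_le _) (mem_filter.2 ⟨hv, hc⟩)) h.sbe
  have h3 := h.sk
  omega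

lemma few_dead (hk : 1 ≤ k) (h : Good k m s σ) :
    (σ.S.filter (fun v => σ.c v = 0)).card < 2 * k + 1 := by
  have h1 : (σ.S.filter (fun v => σ.c v = 0)).card • (100 * k) ≤
      ∑ v ∈ σ.S.filter (fun v => σ.c v = 0), σ.mu v :=
    card_nsmul_le_sum _ _ _ fun v hv => h.dead v (mem_filter.1 hv).1 (mem_filter.1 hv).2
  have h2 : ∑ v ∈ σ.S.filter (fun v => σ.c v = 0), σ.mu v ≤ ∑ v ∈ σ.S, σ.mu v :=
    sum_le_sum_of_subset (filter_subset _ _)
  have h3 := h.smu
  have h4 := h.mk1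
  rw [smul_eq_mul] at h1
  by_contra hc
  have h5 : (2 * k + 1) * (100 * k) ≤ (σ.S.filter (fun v => σ.c v = 0)).card * (100 * k) :=
    Nat.mul_le_mul_right _ (not_lt.1 hc)
  have h6 : 102 * k * m ≤ 102 * k * k := Nat.mul_le_mul_left _ h4
  nlinarith

/-- vertices that are paid for lose their caps -/
def kill (k : ℕ) (σ : St V) : St V :=
  { σ with c := fun v => if σ.mu v < 100 * k then σ.c v else 0 }

omit [DecidableEq V] in
lemma kill_alive {v : V} (hc : 1 ≤ (kill k σ).c v) :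
    σ.mu v < 100 * k ∧ (kill k σ).c v = σ.c v := by
  by_cases hm : σ.mu v < 100 * k
  · exact ⟨hm, if_pos hm⟩
  · have : (kill k σ).c v = 0 := if_neg hm
    omega

omit [DecidableEq V] in
lemma kill_sim : Sim m σ m (kill k σ) := by
  rintro E ⟨own, h⟩
  exact ⟨own, fun o x y ho => h o x y (by cases o <;> exact ho)⟩

lemma kill_good (h : Good k m s σ) (hN : σ.Need = ∅) (hH : σ.H = ∅)
    (ha : Adm σ.S (2 * k + 1) (dem σ) (kill k σ).c Prod.fst σ.hd σ.D) : Good k m s (kill k σ) := by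
  have hle : ∀ v, (kill k σ).c v ≤ σ.c v := fun v => by
    by_cases hm : σ.mu v < 100 * k
    · exact (if_pos hm).le
    · exact (if_neg hm).le.trans (Nat.zero_le _)
  have hn := h.fl.nd
  rw [hN, card_empty] at hn
  have hU : σ.Un = ∅ := card_eq_zero.1 (by omega)
  have hC : σ.Cn = ∅ := card_eq_zero.1 (by omega)
  have al : ∀ v, 1 ≤ (kill k σ).c v → 1 ≤ σ.c v := fun v hv => hv.trans (hle v)
  refine { h with
    fl := { h.fl with }
    ogU := fun p (hp : p ∈ σ.Un) => absurd (hU ▸ hp) (notMem_empty p)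
    ogC := fun p (hp : p ∈ σ.Cn) => absurd (hC ▸ hp) (notMem_empty p)
    acc2 := fun v => (acc_zero h hH v).le.trans (Nat.zero_le _)
    cg := fun v => (hle v).trans (h.cg v)
    i1 := fun v hv hc => (kill_alive hc).2 ▸ h.i1 v hv (al v hc)
    i2 := fun v hv hc => (kill_alive hc).2 ▸ h.i2 v hv (al v hc)
    dead := fun v hv hc => ?_
    und := fun v hv hc => h.und v hv (al v hc)
    sbe := le_trans (sum_le_sum_of_subset fun v hv =>
      mem_filter.2 ⟨(mem_filter.1 hv).1, al v (mem_filter.1 hv).2⟩) h.sbe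
    adm := adm_mono (fun v _ => ?_) ha }
  · by_cases hm : σ.mu v < 100 * k
    · exact h.dead v hv ((if_pos hm).symm.trans hc)
    · exact not_lt.1 hm
  · have : (kill k σ).acc v = 0 := acc_zero h hH v
    rw [cap, this, Nat.sub_zero]

/-- A cheap large set with little borrowed on its soft vertices allows a dive. -/
lemma dive_cheap [Fintype V] (hD : DiveStmt) (hk : 1 ≤ k) (h : Good k m s σ) (hN : σ.Need = ∅)
    (hH : σ.H = ∅) (hm : ∀ v ∈ σ.S, 1 ≤ σ.c v → σ.mu v < 100 * k) {X : Finset V} (hX : X ⊆ σ.S)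
    (hθ : 2 * k + 1 ≤ X.card)
    (hc : mval σ.c Prod.fst σ.hd σ.D X ≤ ∑ v ∈ σ.S \ X, dem σ v + 10 * (100 * k))
    (hb : ∑ v ∈ X.filter (fun v => ex Prod.fst σ.hd σ.D v X < σ.c v), σ.be v ≤ 1000 * k) :
    ∃ σ' : St V, Good k m s σ' ∧ Sim m σ m σ' ∧ σ'.S ⊆ X ∧ σ'.H = ∅ ∧ σ'.Need = ∅ := by
  have ha : Adm σ.S (2 * k + 1) (dem σ) σ.c Prod.fst σ.hd σ.D := cap_eq h hH ▸ h.adm
  obtain ⟨Z, hZ, hmin⟩ := exists_min_image (X.powerset.filter fun Y => 2 * k + 1 ≤ Y.card)
    (fun Y => mval σ.c Prod.fst σ.hd σ.D Y - ∑ v ∈ σ.S \ Y, dem σ v)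
    ⟨X, mem_filter.2 ⟨mem_powerset_self X, hθ⟩⟩
  obtain ⟨hZX, hZθ⟩ := mem_filter.1 hZ
  rw [mem_powerset] at hZX
  have hq := hmin X (mem_filter.2 ⟨mem_powerset_self X, hθ⟩)
  have h0 := acc_zero h hH
  obtain ⟨σ', g, si, e, hH', hN', -⟩ := hD V k m s σ σ.c Z
    (mval σ.c Prod.fst σ.hd σ.D Z - ∑ v ∈ σ.S \ Z, dem σ v) hk h (not_sc hH)
    (fun v => by rw [h0, add_zero]) ha (hZX.trans hX) hZθ (by omega)
    (fun Y hY hYθ => by
      have h1 := hmin Y (mem_filter.2 ⟨mem_powerset.2 (hY.trans hZX), hYθ⟩)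
      have h2 := ha Y (hY.trans (hZX.trans hX)) hYθ
      omega)
    (fun v _ _ => by rw [h0, add_zero])
    (fun v hv hc' _ => by
      have := big_cap h (hX (hZX hv)) hc' (hm v (hX (hZX hv)) hc')
      omega)
    (by
      have : ∑ v ∈ Z.filter (fun v => ex Prod.fst σ.hd σ.D v Z < σ.c v), σ.be v ≤
          ∑ v ∈ X.filter (fun v => ex Prod.fst σ.hd σ.D v X < σ.c v), σ.be v :=
        sum_le_sum_of_subset fun v hv => mem_filter.2 ⟨hZX (mem_filter.1 hv).1,
          (ex_anti v hZX).trans_lt (mem_filter.1 hv).2⟩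
      omega)
    (fun x y e => by rw [dg_none h hN] at e; cases e)
  exact ⟨σ', g, si, e ▸ hZX, subset_empty.1 (hH ▸ hH'), subset_empty.1 (hN ▸ hN')⟩

/-- One round: a target, or a smaller region. -/
lemma step [Fintype V] (hL : LowerStmt) (hT : TL2Stmt) (hD : DiveStmt) (hk : 1 ≤ k)
    (h : Good k m s σ) (hN : σ.Need = ∅) (hH : σ.H = ∅) :
    ∃ σ' : St V, Good k m s σ' ∧ Sim m σ m σ' ∧ σ'.Need = ∅ ∧ σ'.H = ∅ ∧
      (σ'.S.card < σ.S.card ∨ ∃ z, z ∈ σ'.S ∧ 1 ≤ σ'.c z ∧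
        (∀ v ∈ σ'.S, 1 ≤ σ'.c v → σ'.mu v < 100 * k) ∧
        ∀ X, X ⊆ σ'.S → 2 * k + 1 ≤ X.card → z ∉ X →
          ∑ v ∈ σ'.S \ X, dem σ' v + 100 * k ≤ mval (cap σ') Prod.fst σ'.hd σ'.D X) := by
  have ha : Adm σ.S (2 * k + 1) (dem σ) σ.c Prod.fst σ.hd σ.D := cap_eq h hH ▸ h.adm
  have h0 := acc_zero h hH
  have hle : ∀ v, (kill k σ).c v ≤ σ.c v := fun v => by
    by_cases hm : σ.mu v < 100 * k
    · exact (if_pos hm).le
    · exact (if_neg hm).le.trans (Nat.zero_le _)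
  rcases hL V (V × V) Prod.fst σ.hd σ.D σ.S (dem σ) σ.c (fun v => min ((kill k σ).c v) (100 * k))
    (2 * k + 1) (fun a ha => (h.arcD a ha).2) (fun v => (min_le_left _ _).trans (hle v)) ha with
    h1 | ⟨c2, Z, hc, h1, hZ, hne, hθ, ht, hs⟩
  · have g := kill_good h hN hH (adm_mono (fun v _ => min_le_left _ _) h1)
    have hm : ∀ v ∈ (kill k σ).S, 1 ≤ (kill k σ).c v → (kill k σ).mu v < 100 * k :=
      fun v _ hc => (kill_alive hc).1
    have si : Sim m σ m (kill k σ) := kill_sim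
    have hS : (kill k σ).S = σ.S := rfl
    have hN1 : (kill k σ).Need = ∅ := hN
    have hH1 : (kill k σ).H = ∅ := hH
    have h2 : Adm (kill k σ).S (2 * k + 1) (dem (kill k σ))
      (fun v => min ((kill k σ).c v) (100 * k)) Prod.fst (kill k σ).hd (kill k σ).D := h1
    rw [← hS]
    generalize kill k σ = τ at g hm si hN1 hH1 h2
    by_cases hz : ∃ z, z ∈ τ.S ∧ 1 ≤ τ.c z ∧ ∀ X, X ⊆ τ.S → 2 * k + 1 ≤ X.card → z ∉ X →
        ∑ v ∈ τ.S \ X, dem τ v + 100 * k ≤ mval τ.c Prod.fst τ.hd τ.D X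
    · obtain ⟨z, z1, z2, z3⟩ := hz
      exact ⟨τ, g, si, hN1, hH1, Or.inr ⟨z, z1, z2, hm, (cap_eq g hH1).symm ▸ z3⟩⟩
    push Not at hz
    obtain ⟨X, Y, hX, hY, hXθ, hYθ, hXY, cX, cY⟩ := hT V (V × V) Prod.fst τ.hd τ.D τ.S τ.c (dem τ)
      (2 * k + 1) (100 * k) (by omega) (fun a ha => (g.arcD a ha).2)
      (fun v hv => by
        rcases Nat.eq_zero_or_pos (τ.c v) with e | e
        · exact Or.inl e
        · have := big_cap g hv e (hm v hv e)
          exact Or.inr (by omega))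
      (few_dead hk g) g.big
      (fun v hv hc X _ hX => by
        have := rich g hH1 hv hc hX
        omega) h2 hz
    have hdj : Disjoint (X.filter (fun v => ex Prod.fst τ.hd τ.D v X < τ.c v))
        (Y.filter (fun v => ex Prod.fst τ.hd τ.D v Y < τ.c v)) := by
      rw [disjoint_left]
      intro v h3 h4
      obtain ⟨h5, h6⟩ := mem_filter.1 h3
      have h7 := (mem_filter.1 h4).2
      have h8 := rich g hH1 (hX h5) (by omega) hXY
      have h9 := ex_inter (tl := Prod.fst) (hd := τ.hd) (D := τ.D) v X Y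
      have h10 := g.cg v
      omega
    have hsum : ∑ v ∈ X.filter (fun v => ex Prod.fst τ.hd τ.D v X < τ.c v), τ.be v +
        ∑ v ∈ Y.filter (fun v => ex Prod.fst τ.hd τ.D v Y < τ.c v), τ.be v ≤ 2000 * k := by
      rw [← sum_union hdj]
      refine le_trans (sum_le_sum_of_subset fun v hv => mem_filter.2 ?_) g.sbe
      rcases mem_union.1 hv with hv | hv
      · exact ⟨hX (mem_filter.1 hv).1, by have := (mem_filter.1 hv).2; omega⟩
      · exact ⟨hY (mem_filter.1 hv).1, by have := (mem_filter.1 hv).2; omega⟩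
    have lt : ∀ X Y : Finset V, X ⊆ τ.S → Y ⊆ τ.S → 2 * k + 1 ≤ Y.card →
        (X ∩ Y).card < 2 * k + 1 → X.card < τ.S.card := fun X Y hX hY hθ hXY =>
      card_lt_card (ssubset_of_subset_of_ne hX fun e => by
        rw [e, inter_eq_right.2 hY] at hXY
        omega)
    rcases le_or_gt (∑ v ∈ X.filter (fun v => ex Prod.fst τ.hd τ.D v X < τ.c v), τ.be v)
      (1000 * k) with hb | hb
    · obtain ⟨σ', g', si', e, hH', hN'⟩ := dive_cheap hD hk g hN1 hH1 hm hX hXθ cX hb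
      exact ⟨σ', g', fun E r => si' E (si E r), hN', hH',
        Or.inl ((card_le_card e).trans_lt (lt X Y hX hY hYθ hXY))⟩
    · obtain ⟨σ', g', si', e, hH', hN'⟩ := dive_cheap hD hk g hN1 hH1 hm hY hYθ cY (by omega)
      exact ⟨σ', g', fun E r => si' E (si E r), hN', hH',
        Or.inl ((card_le_card e).trans_lt (lt Y X hY hX hXθ (inter_comm X Y ▸ hXY)))⟩
  · obtain ⟨σ', g, si, e, hH', hN', -⟩ := hD V k m s σ c2 Z 0 hk h (not_sc hH)
      (fun v => by rw [h0, add_zero]; exact (hc v).2) h1 hZ hθ ht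
      (fun Y hY hYθ => h1 Y (hY.trans hZ) hYθ)
      (fun v hv hlt => by rw [h0, add_zero, hs v hv hlt])
      (fun v hv hc' _ => by
        by_cases hm : σ.mu v < 100 * k
        · have h2 := big_cap h (hZ hv) hc' hm
          have h3 : (kill k σ).c v = σ.c v := if_pos hm
          have h4 := (hc v).1
          rw [h3] at h4
          omega
        · omega)
      (le_trans (sum_le_sum_of_subset fun v hv => mem_filter.2 ⟨hZ (mem_filter.1 hv).1, by
        have h2 := (mem_filter.1 hv).2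
        have h3 := (hc v).2
        omega⟩) h.sbe)
      (fun x y e => by rw [dg_none h hN] at e; cases e)
    exact ⟨σ', g, si, subset_empty.1 (hN ▸ hN'), subset_empty.1 (hH ▸ hH'),
      Or.inl (e ▸ card_lt_card (ssubset_of_subset_of_ne hZ hne))⟩

end H95

theorem prep : LowerStmt → TL2Stmt → DiveStmt → PrepStmt := by
  intro hL hT hD V _ _ k m s σ hk h hN hH
  induction hn : σ.S.card using Nat.strong_induction_on generalizing σ with
  | _ n ih =>
    obtain ⟨σ', g, si, hN', hH', hlt | ⟨z, hz⟩⟩ := H95.step hL hT hD hk h hN hH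
    · obtain ⟨σ'', z, g', si', r⟩ := ih _ (hn ▸ hlt) σ' g hN' hH' rfl
      exact ⟨σ'', z, g', fun E r => si' E (si E r), r⟩
    · exact ⟨σ', z, g, si, hN', hH', hz⟩

end Pool.Agent.MP_b9875a_co.H99.LN
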